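import Mathlib

set_option autoImplicit false

namespace Pool.Agent.Results.MP_053bca_co.OddOrderNearChain

/-- The rank of the chain of cells `(x, θ x)` in the Cayley table of `G`:
the number of distinct symbols `x * θ x`. -/
noncomputable def chainRank {G : Type*} [Group G] (θ : Equiv.Perm G) : ℕ :=
  (Set.range fun x : G => x * θ x).ncard

/-- `G` is `t`-admissible if some chain of its Cayley table has rank `t`. -/
def Admissible (G : Type*) [Group G] (t : ℕ) : Prop :=
  ∃ θ : Equiv.Perm G, chainRank θ = t

section core

variable {G Q : Type*} [Group G] [Group Q]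

/-- Squaring is injective in a finite group of odd order. -/
theorem sq_inj [Finite G] (hodd : Odd (Nat.card G)) {a b : G} (h : a * a = b * b) : a = b := by
  have hc : (Nat.card G).Coprime 2 := Nat.coprime_two_right.2 hodd
  have := (Nat.Coprime.pow_left_bijective (G := G) hc).1
  exact this (by simpa [pow_two] using h)

/-- The switching lemma: from suitable sections `x`, `y` of `π : G → Q` one gets a permutation
of `G` all of whose symbols avoid `x 1 * y 1` and hit everything else. -/
theorem core [Finite G] [Finite Q] (hodd : Odd (Nat.card G)) (hoddQ : Odd (Nat.card Q))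
    (π : G →* Q) (q : Q) (x y : Q → G)
    (hx : ∀ i, π (x i) = i) (hy : ∀ i, π (y i) = i)
    (h1 : ∀ i, i ≠ q⁻¹ → x i * y (i * q * q) = x (i * q) * y (i * q))
    (h2 : x q⁻¹ * y q ≠ x 1 * y 1) :
    ∃ θ : Equiv.Perm G, Set.range (fun g : G => g * θ g) = {x 1 * y 1}ᶜ := by
  classical
  -- the base transversal
  let Θ : G → G := fun g => (x (π g))⁻¹ * g * y (π g)
  have hΘπ : ∀ g, π (Θ g) = π g := by
    intro g
    simp only [Θ, map_mul, map_inv, hx, hy]
    group
  have hΘx : ∀ i, Θ (x i) = y i := by
    intro i
    simp only [Θ, hx]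
    group
  have hΘinj : ∀ g g', Θ g = Θ g' → g = g' := by
    intro g g' h
    have hp : π g = π g' := by rw [← hΘπ g, ← hΘπ g', h]
    simp only [Θ, hp] at h
    simpa using h
  have hsym : ∀ g g', g * Θ g = g' * Θ g' → g = g' := by
    intro g g' h
    have hp : π g = π g' := by
      apply sq_inj hoddQ
      have := congrArg π h
      simpa only [map_mul, hΘπ] using this
    have e : ∀ k, π k = π g' →
        k * Θ k = (k * (x (π g'))⁻¹) * (k * (x (π g'))⁻¹) * (x (π g') * y (π g')) := by
      intro k hk
      simp only [Θ, hk]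
      group
    rw [e g hp, e g' rfl] at h
    have h' := mul_right_cancel h
    have := sq_inj hodd h'
    exact mul_right_cancel this
  have hsurj : ∀ s, ∃ g, g * Θ g = s :=
    Finite.surjective_of_injective (f := fun g => g * Θ g) (fun g g' h => hsym g g' h)
  -- the modified map
  let f : G → G := fun g => if g = x (π g) then y (π g * q * q) else Θ g
  have hfx : ∀ i, f (x i) = y (i * q * q) := by
    intro i
    simp only [f, hx, if_true]
  have hfn : ∀ g, g ≠ x (π g) → f g = Θ g := fun g hg => if_neg hg
  have hfinj : Function.Injective f := by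
    intro g g' h
    by_cases hg : g = x (π g) <;> by_cases hg' : g' = x (π g')
    · rw [hg, hg', hfx, hfx] at h
      have := congrArg π h
      rw [hy, hy] at this
      have := mul_right_cancel (mul_right_cancel this)
      rw [hg, hg', this]
    · exfalso
      rw [hg, hfx, hfn g' hg'] at h
      have hp := congrArg π h
      rw [hy, hΘπ] at hp
      rw [hp, ← hΘx] at h
      exact hg' (hΘinj _ _ h).symm
    · exfalso
      rw [hg', hfx, hfn g hg] at h
      have hp := congrArg π h
      rw [hy, hΘπ] at hp
      rw [← hp, ← hΘx] at h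
      exact hg (hΘinj _ _ h)
    · rw [hfn g hg, hfn g' hg'] at h
      exact hΘinj _ _ h
  have hfbij : Function.Bijective f := Finite.injective_iff_bijective.1 hfinj
  refine ⟨Equiv.ofBijective f hfbij, ?_⟩
  ext s
  simp only [Set.mem_range, Equiv.ofBijective_apply, Set.mem_compl_iff, Set.mem_singleton_iff]
  constructor
  · rintro ⟨g, rfl⟩ hs
    by_cases hg : g = x (π g)
    · rw [hg, hfx] at hs
      by_cases hq : π g = q⁻¹
      · rw [hq] at hs
        apply h2
        simpa using hs
      · rw [h1 _ hq] at hs
        have hp := congrArg π hs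
        simp only [map_mul, hx, hy, mul_one] at hp
        have : π g * q = 1 := sq_inj hoddQ (by rw [hp, mul_one])
        exact hq (eq_inv_of_mul_eq_one_left this)
    · rw [hfn g hg, ← hΘx] at hs
      have := hsym _ _ hs
      apply hg
      rw [this, hx]
  · intro hs
    obtain ⟨g, rfl⟩ := hsurj s
    by_cases hg : g = x (π g)
    · have hne : π g * q⁻¹ ≠ q⁻¹ := by
        intro h
        have h1' : π g = 1 := by simpa using h
        apply hs
        rw [hg, hΘx, h1']
      refine ⟨x (π g * q⁻¹), ?_⟩
      have hΘg : Θ g = y (π g) := by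
        conv_lhs => rw [hg]
        rw [hΘx]
      rw [hfx, h1 _ hne, inv_mul_cancel_right, hΘg, ← hg]
    · exact ⟨g, by rw [hfn g hg]⟩

/-- The explicit sections. -/
theorem exists_sections [Finite G] [Finite Q] (hodd : Odd (Nat.card G)) (hoddQ : Odd (Nat.card Q))
    (π : G →* Q) (hA : ∀ a b : G, π a = 1 → π b = 1 → a * b = b * a)
    (g t : G) (ht : π t = 1) (htg : t * g ≠ g * t) (hq : ∀ i : Q, i ∈ Subgroup.zpowers (π g)) :
    ∃ x y : Q → G, (∀ i, π (x i) = i) ∧ (∀ i, π (y i) = i) ∧
      (∀ i, i ≠ (π g)⁻¹ → x i * y (i * π g * π g) = x (i * π g) * y (i * π g)) ∧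
      x (π g)⁻¹ * y (π g) ≠ x 1 * y 1 := by
  classical
  set q := π g with hqdef
  set p := orderOf q with hp
  have hpcard : p = Nat.card Q := orderOf_eq_card_of_forall_mem_zpowers hq
  have hpodd : Odd p := hpcard ▸ hoddQ
  have hp1 : p ≠ 1 := by
    intro h
    rw [hp, orderOf_eq_one_iff] at h
    exact htg (hA t g ht (by rw [← hqdef, h]))
  have hp3 : 3 ≤ p := by
    obtain ⟨k, hk⟩ := hpodd
    omega
  have hpos : 0 < p := by omega
  -- the discrete logarithm
  have hlog : ∀ i : Q, ∃ k, k < p ∧ q ^ k = i := by
    intro i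
    have := (isOfFinOrder_of_finite q).mem_powers_iff_mem_range_orderOf.1
      ((mem_powers_iff_mem_zpowers).2 (hq i))
    simpa using this
  choose e he1 he2 using hlog
  have heq : ∀ k, k < p → e (q ^ k) = k := by
    intro k hk
    exact pow_injOn_Iio_orderOf (he1 _) hk (he2 _)
  let X : ℕ → G := fun k => if k = 0 then 1 else if k = 1 then g else g * t * g ^ (k - 1)
  let Y : ℕ → G := fun k =>
    if k = 0 then 1 else if k = 1 then g else if k = 2 then g * g else g ^ (k - 3) * t * g ^ 3
  have hX : ∀ k, π (X k) = q ^ k := by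
    intro k
    match k with
    | 0 => simp [X]
    | 1 => simp [X, hqdef]
    | k + 2 =>
      have : X (k + 2) = g * t * g ^ (k + 1) := by simp [X]
      rw [this, map_mul, map_mul, map_pow, ht, mul_one, ← hqdef, ← pow_succ']
  have hY : ∀ k, π (Y k) = q ^ k := by
    intro k
    match k with
    | 0 => simp [Y]
    | 1 => simp [Y, hqdef]
    | 2 => simp [Y, hqdef, pow_two]
    | k + 3 =>
      have : Y (k + 3) = g ^ k * t * g ^ 3 := by simp [Y]
      rw [this, map_mul, map_mul, map_pow, map_pow, ht, mul_one, ← hqdef, ← pow_add]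
  have hXY : ∀ k, X k * Y (k + 2) = X (k + 1) * Y (k + 1) := by
    intro k
    match k with
    | 0 => simp [X, Y]
    | 1 => simp [X, Y, mul_assoc, pow_succ]
    | k + 2 =>
      have a1 : X (k + 2) = g * t * g ^ (k + 1) := by simp [X]
      have a2 : X (k + 2 + 1) = g * t * g ^ (k + 2) := by simp [X]
      have a3 : Y (k + 2 + 2) = g ^ (k + 1) * t * g ^ 3 := by simp [Y]
      have a4 : Y (k + 2 + 1) = g ^ k * t * g ^ 3 := by simp [Y]
      rw [a1, a2, a3, a4]
      have : g ^ (k + 1) * g ^ (k + 1) = g ^ (k + 2) * g ^ k := by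
        rw [← pow_add, ← pow_add]
        congr 1
        omega
      calc g * t * g ^ (k + 1) * (g ^ (k + 1) * t * g ^ 3)
          = g * t * (g ^ (k + 1) * g ^ (k + 1)) * t * g ^ 3 := by group
        _ = g * t * (g ^ (k + 2) * g ^ k) * t * g ^ 3 := by rw [this]
        _ = g * t * g ^ (k + 2) * (g ^ k * t * g ^ 3) := by group
  let e' : Q → ℕ := fun i => if e i = 0 then p else e i
  have he' : ∀ i, q ^ e' i = i := by
    intro i
    by_cases h : e i = 0
    · have h2 := he2 i
      rw [h, pow_zero] at h2
      simp only [e', h, if_true]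
      rw [hp, pow_orderOf_eq_one, h2]
    · simp only [e', h, if_false]
      exact he2 i
  have he'eq : ∀ k, 1 ≤ k → k ≤ p → e' (q ^ k) = k := by
    intro k h1 h2
    rcases Nat.lt_or_ge k p with h | h
    · simp only [e', heq k h]
      rw [if_neg (by omega)]
    · have hkp : k = p := le_antisymm h2 h
      subst hkp
      have : e (q ^ p) = 0 := by
        have := heq 0 hpos
        rw [pow_zero] at this
        rw [hp, pow_orderOf_eq_one, this]
      simp only [e', this, if_true]
  refine ⟨fun i => X (e i), fun i => Y (e' i), fun i => by rw [hX, he2], fun i => by rw [hY, he'],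
    ?_, ?_⟩
  · intro i hi
    have hk : e i ≤ p - 2 := by
      by_contra hcon
      push Not at hcon
      have h1 := he1 i
      have : e i = p - 1 := by omega
      apply hi
      have h2 := he2 i
      rw [this] at h2
      rw [eq_inv_iff_mul_eq_one, ← h2, ← pow_succ, Nat.sub_add_cancel (by omega), hp,
        pow_orderOf_eq_one]
    have hi1 : i * q = q ^ (e i + 1) := by rw [pow_succ, he2]
    have hi2 : i * q * q = q ^ (e i + 2) := by rw [pow_succ, ← hi1]
    simp only
    rw [hi2, hi1, heq (e i + 1) (by omega), he'eq (e i + 1) (by omega) (by omega),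
      he'eq (e i + 2) (by omega) (by omega)]
    exact hXY _
  · have hinv : q⁻¹ = q ^ (p - 1) := by
      rw [inv_eq_iff_mul_eq_one, ← pow_succ', Nat.sub_add_cancel (by omega), hp,
        pow_orderOf_eq_one]
    have h1' : (1 : Q) = q ^ p := by rw [hp, pow_orderOf_eq_one]
    have e0 : e 1 = 0 := by
      have := heq 0 hpos
      rwa [pow_zero] at this
    have e1 : e' 1 = p := by simp only [e', e0, if_true]
    have e2 : e' q = 1 := by
      have := he'eq 1 le_rfl (by omega)
      rwa [pow_one] at this
    simp only
    rw [hinv, heq (p - 1) (by omega), e0, e1, e2]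
    obtain ⟨m, hm⟩ : ∃ m, p = m + 3 := ⟨p - 3, by omega⟩
    have b1 : X (p - 1) = g * t * g ^ (m + 1) := by
      rw [hm]
      simp [X]
    have b2 : Y 1 = g := by simp [Y]
    have b3 : X 0 = 1 := by simp [X]
    have b4 : Y p = g ^ m * t * g ^ 3 := by
      rw [hm]
      simp [Y]
    rw [b1, b2, b3, b4, one_mul]
    intro hcon
    -- `t` commutes with `g ^ p`
    have c1 : Commute t (g ^ p) := by
      apply hA t _ ht
      rw [map_pow, ← hqdef, hp, pow_orderOf_eq_one]
    -- and with `g ^ (p - 4)`, written with a positive exponent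
    have c2 : t * g ^ (m + 2) = g ^ (-1 : ℤ) * g ^ m * t * g ^ 3 := by
      have : g * t * g ^ (m + 1) * g = g * (t * g ^ (m + 2)) := by
        rw [pow_succ g (m + 1)]
        group
      rw [this] at hcon
      rw [zpow_neg_one, mul_assoc, mul_assoc, eq_inv_mul_iff_mul_eq, hcon]
      group
    have c3 : Commute t (g ^ ((m : ℤ) - 1)) := by
      show t * g ^ ((m : ℤ) - 1) = g ^ ((m : ℤ) - 1) * t
      have : t * g ^ (m + 2) * g ^ (-3 : ℤ) = g ^ (-1 : ℤ) * g ^ m * t * g ^ 3 * g ^ (-3 : ℤ) := by
        rw [c2]
      have l : t * g ^ (m + 2) * g ^ (-3 : ℤ) = t * g ^ ((m : ℤ) - 1) := by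
        rw [mul_assoc, ← zpow_natCast, ← zpow_add]
        congr 2
        push_cast
        omega
      have r : g ^ (-1 : ℤ) * g ^ m * t * g ^ 3 * g ^ (-3 : ℤ) = g ^ ((m : ℤ) - 1) * t := by
        have : g ^ 3 * g ^ (-3 : ℤ) = 1 := by
          rw [← zpow_natCast, ← zpow_add]
          simp
        rw [mul_assoc, this, mul_one, ← zpow_natCast g m, ← zpow_add, neg_add_eq_sub]
      rw [← l, ← r, this]
    have c4 : Commute t (g ^ (4 : ℤ)) := by
      have h1 : Commute t (g ^ ((m : ℤ) + 3)) := by
        have := c1
        rw [hm, ← zpow_natCast] at this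
        simpa using this
      have h2 : g ^ (4 : ℤ) = g ^ ((m : ℤ) + 3) * (g ^ ((m : ℤ) - 1))⁻¹ := by
        rw [← zpow_neg, ← zpow_add]
        congr 1
        ring
      rw [h2]
      exact h1.mul_right c3.inv_right
    have c5 : Commute t g := by
      have hog : Odd (orderOf g) := Odd.of_dvd_nat hodd (orderOf_dvd_natCard g)
      have hcop : Nat.Coprime (orderOf g) 4 := by
        have : Nat.Coprime (orderOf g) 2 := Nat.coprime_two_right.2 hog
        exact Nat.Coprime.pow_right 2 this
      obtain ⟨k, hk⟩ := exists_pow_eq_self_of_coprime hcop.symm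
      have : Commute t (g ^ 4) := by
        have h := c4
        have e : g ^ (4 : ℤ) = g ^ 4 := by
          rw [← zpow_natCast]
          rfl
        rwa [e] at h
      rw [← hk]
      exact this.pow_right k
    exact htg c5

end core

section reduction

variable {G : Type*} [Group G]

/-- If all symbols but exactly one occur, the rank is `|G| - 1`. -/
theorem admissible_of_range_compl [Finite G] {θ : Equiv.Perm G} {s : G}
    (h : Set.range (fun g : G => g * θ g) = {s}ᶜ) : Admissible G (Nat.card G - 1) := by
  refine ⟨θ, ?_⟩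
  rw [chainRank, h, Set.ncard_compl, Set.ncard_singleton]

/-- A chain of a subgroup extends by squares outside the subgroup. -/
theorem extend_from_subgroup [Finite G] (hodd : Odd (Nat.card G)) (H : Subgroup G)
    (hH : Admissible H (Nat.card H - 1)) : Admissible G (Nat.card G - 1) := by
  classical
  obtain ⟨θ, hθ⟩ := hH
  rw [chainRank] at hθ
  -- the missing symbol of `H`
  have hcompl : ((Set.range fun x : H => x * θ x)ᶜ).ncard = 1 := by
    rw [Set.ncard_compl, hθ]
    have : 0 < Nat.card H := Nat.card_pos
    omega
  obtain ⟨s, hs⟩ := Set.ncard_eq_one.1 hcompl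
  have hsq : ∀ x : G, x * x ∈ H → x ∈ H := by
    intro x hx
    have hox : Odd (orderOf x) := Odd.of_dvd_nat hodd (orderOf_dvd_natCard x)
    have hcop : Nat.Coprime (orderOf x) 2 := Nat.coprime_two_right.2 hox
    obtain ⟨k, hk⟩ := exists_pow_eq_self_of_coprime hcop.symm
    rw [← hk, pow_two]
    exact H.pow_mem hx k
  let f : G → G := fun x => if h : x ∈ H then (θ ⟨x, h⟩ : G) else x
  have hf1 : ∀ x (h : x ∈ H), f x = θ ⟨x, h⟩ := fun x h => dif_pos h
  have hf2 : ∀ x (_ : x ∉ H), f x = x := fun x h => dif_neg h
  have hfinj : Function.Injective f := by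
    intro x x' h
    by_cases hx : x ∈ H <;> by_cases hx' : x' ∈ H
    · rw [hf1 x hx, hf1 x' hx'] at h
      have := θ.injective (Subtype.ext h)
      exact congrArg Subtype.val this
    · rw [hf1 x hx, hf2 x' hx'] at h
      exact absurd (h ▸ (θ ⟨x, hx⟩).2) hx'
    · rw [hf2 x hx, hf1 x' hx'] at h
      exact absurd (h.symm ▸ (θ ⟨x', hx'⟩).2) hx
    · rwa [hf2 x hx, hf2 x' hx'] at h
  refine admissible_of_range_compl (G := G)
    (θ := Equiv.ofBijective f (Finite.injective_iff_bijective.1 hfinj)) (s := (s : G)) ?_
  ext u
  simp only [Set.mem_range, Equiv.ofBijective_apply, Set.mem_compl_iff, Set.mem_singleton_iff]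
  constructor
  · rintro ⟨x, rfl⟩ hu
    by_cases hx : x ∈ H
    · rw [hf1 x hx] at hu
      have : s ∈ (Set.range fun x : H => x * θ x)ᶜ := by rw [hs]; rfl
      exact this ⟨⟨x, hx⟩, Subtype.ext hu⟩
    · rw [hf2 x hx] at hu
      exact hx (hsq x (hu ▸ s.2))
  · intro hu
    by_cases huH : u ∈ H
    · have : (⟨u, huH⟩ : H) ∈ Set.range fun x : H => x * θ x := by
        by_contra hcon
        have h' : (⟨u, huH⟩ : H) ∈ (Set.range fun x : H => x * θ x)ᶜ := hcon
        rw [hs] at h'
        exact hu (congrArg Subtype.val h')
      obtain ⟨x, hx⟩ := this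
      refine ⟨x, ?_⟩
      rw [hf1 x x.2]
      exact congrArg Subtype.val hx
    · have hc : (Nat.card G).Coprime 2 := Nat.coprime_two_right.2 hodd
      obtain ⟨x, hx⟩ := (Nat.Coprime.pow_left_bijective (G := G) hc).2 u
      simp only [pow_two] at hx
      have hxH : x ∉ H := fun h => huH (hx ▸ H.mul_mem h h)
      exact ⟨x, by rw [hf2 x hxH, hx]⟩

/-- If all proper subgroups of a finite non-abelian group are abelian, some maximal subgroup
is normal. -/
theorem exists_normal_coatom [Finite G] (hG : ¬ ∀ a b : G, a * b = b * a)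
    (hab : ∀ H : Subgroup G, H ≠ ⊤ → ∀ a ∈ H, ∀ b ∈ H, a * b = b * a) :
    ∃ M : Subgroup G, M.Normal ∧ IsCoatom M := by
  classical
  by_cases hn : Group.IsNilpotent G
  · have h := (Group.isNilpotent_of_finite_tfae (G := G)).out 0 2
    have h' := h.1 hn
    have hnt : Nontrivial G := by
      by_contra hcon
      rw [not_nontrivial_iff_subsingleton] at hcon
      exact hG fun a b => Subsingleton.elim _ _
    obtain ⟨M, hM, -⟩ := (eq_top_or_exists_le_coatom (⊥ : Subgroup G)).resolve_left bot_ne_top
    exact ⟨M, h' M hM, hM⟩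
  · have h := (Group.isNilpotent_of_finite_tfae (G := G)).out 0 3
    rw [h] at hn
    push Not at hn
    obtain ⟨p, hp, P, hP⟩ := hn
    have hPn : Subgroup.normalizer (P : Set G) ≠ ⊤ := by
      intro htop
      exact hP (Subgroup.normalizer_eq_top_iff.1 htop)
    have hle : Subgroup.normalizer (P : Set G) ≤ Subgroup.centralizer (P : Set G) := by
      intro a ha b hb
      exact (hab _ hPn a ha b (Subgroup.le_normalizer hb)).symm
    have hK := MonoidHom.ker_transferSylow_isComplement' P hle
    set K := (MonoidHom.transferSylow P hle).ker with hKdef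
    have hPbot : (P : Subgroup G) ≠ ⊥ := by
      intro hbot
      apply hP
      rw [hbot]
      infer_instance
    have hKtop : K ≠ ⊤ := by
      intro htop
      apply hPbot
      have := hK.disjoint
      rw [htop] at this
      exact disjoint_top.1 this.symm
    obtain ⟨M, hM, hKM⟩ := (eq_top_or_exists_le_coatom K).resolve_left hKtop
    refine ⟨M, ?_, hM⟩
    -- `M` contains all commutators
    refine ⟨fun m hm g => ?_⟩
    have hker : g * m * g⁻¹ * m⁻¹ ∈ K := by
      rw [hKdef, MonoidHom.mem_ker]
      simp only [map_mul, map_inv]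
      set a := MonoidHom.transferSylow P hle g
      set b := MonoidHom.transferSylow P hle m
      have hcomm : a * b = b * a := by
        apply Subtype.ext
        exact hab _ hPn a (Subgroup.le_normalizer a.2) b (Subgroup.le_normalizer b.2)
      rw [hcomm, mul_inv_cancel_right, mul_inv_cancel]
    have := M.mul_mem (hKM hker) hm
    simpa using this

/-- Every finite non-abelian group of odd order is `(n-1)`-admissible. -/
theorem nonabelian_admissible : ∀ (n : ℕ) (G : Type*) [Group G] [Finite G], Nat.card G = n →
    Odd (Nat.card G) → (¬ ∀ a b : G, a * b = b * a) → Admissible G (Nat.card G - 1) := by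
  intro n
  induction n using Nat.strong_induction_on with
  | _ n ih =>
    intro G _ _ hn hodd hG
    by_cases hex : ∃ H : Subgroup G, H ≠ ⊤ ∧ ¬ ∀ a ∈ H, ∀ b ∈ H, a * b = b * a
    · obtain ⟨H, hH, hHc⟩ := hex
      apply extend_from_subgroup hodd H
      have hlt : Nat.card H < n := by
        rw [← hn]
        exact lt_of_le_of_ne (Subgroup.card_le_card_group H)
          (fun h => hH (Subgroup.card_eq_iff_eq_top H |>.1 h))
      refine ih _ hlt H rfl (Odd.of_dvd_nat hodd (Subgroup.card_subgroup_dvd_card H)) ?_
      intro hcomm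
      apply hHc
      intro a ha b hb
      exact congrArg Subtype.val (hcomm ⟨a, ha⟩ ⟨b, hb⟩)
    · push Not at hex
      obtain ⟨M, hMn, hM⟩ := exists_normal_coatom hG hex
      have hMab := hex M hM.1
      obtain ⟨g, hg⟩ : ∃ g : G, g ∉ M := by
        by_contra hcon
        push Not at hcon
        exact hM.1 (eq_top_iff.2 fun x _ => hcon x)
      have hgen : M ⊔ Subgroup.zpowers g = ⊤ := by
        apply hM.2
        refine lt_of_le_of_ne le_sup_left ?_
        intro h
        apply hg
        rw [h]
        exact (le_sup_right : Subgroup.zpowers g ≤ M ⊔ Subgroup.zpowers g)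
          (Subgroup.mem_zpowers g)
      obtain ⟨t, htM, htg⟩ : ∃ t ∈ M, t * g ≠ g * t := by
        by_contra hcon
        push Not at hcon
        apply hG
        have hcen : (⊤ : Subgroup G) ≤ Subgroup.centralizer (⊤ : Subgroup G) := by
          have hg' : g ∈ Subgroup.centralizer ((M ⊔ Subgroup.zpowers g : Subgroup G) : Set G) := by
            rw [← Subgroup.zpowers_le, ← Subgroup.le_centralizer_iff]
            refine sup_le ?_ ?_
            · intro m hm
              rw [Subgroup.mem_centralizer_iff]
              rintro x ⟨k, rfl⟩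
              have : Commute m g := hcon m hm
              exact (this.zpow_right k).symm
            · intro z hz
              rw [Subgroup.mem_centralizer_iff]
              rintro x hx
              obtain ⟨k, rfl⟩ := hx
              obtain ⟨l, rfl⟩ := hz
              exact ((Commute.refl g).zpow_zpow k l)
          have hm' : M ≤ Subgroup.centralizer ((M ⊔ Subgroup.zpowers g : Subgroup G) : Set G) := by
            rw [← Subgroup.le_centralizer_iff]
            refine sup_le ?_ ?_
            · intro m hm
              rw [Subgroup.mem_centralizer_iff]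
              intro x hx
              exact hMab x hx m hm
            · intro z hz
              obtain ⟨l, rfl⟩ := hz
              rw [Subgroup.mem_centralizer_iff]
              intro x hx
              have : Commute x g := hcon x hx
              exact this.zpow_right l
          rw [hgen] at hg' hm'
          rw [← hgen]
          refine sup_le ?_ ?_
          · rw [hgen]; exact hm'
          · rw [hgen, Subgroup.zpowers_le]; exact hg'
        intro a b
        have := hcen (Subgroup.mem_top a)
        rw [Subgroup.mem_centralizer_iff] at this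
        exact (this b (Subgroup.mem_top b)).symm
      -- the quotient map
      let π := QuotientGroup.mk' M
      have hπ : ∀ a, π a = 1 ↔ a ∈ M := fun a => QuotientGroup.eq_one_iff a
      have hq : ∀ i : G ⧸ M, i ∈ Subgroup.zpowers (π g) := by
        intro i
        obtain ⟨a, rfl⟩ := QuotientGroup.mk'_surjective M i
        have ha : a ∈ ((M ⊔ Subgroup.zpowers g : Subgroup G) : Set G) := by rw [hgen]; trivial
        rw [Subgroup.normal_mul] at ha
        obtain ⟨m, hm, z, ⟨k, rfl⟩, rfl⟩ := ha
        refine ⟨k, ?_⟩
        simp only [map_mul, map_zpow]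
        rw [(hπ m).2 hm, one_mul]
      have hoddQ : Odd (Nat.card (G ⧸ M)) :=
        Odd.of_dvd_nat hodd (Subgroup.card_quotient_dvd_card M)
      obtain ⟨x, y, hx, hy, h1, h2⟩ := exists_sections hodd hoddQ π
        (fun a b ha hb => hMab a ((hπ a).1 ha) b ((hπ b).1 hb)) g t ((hπ t).2 htM) htg hq
      obtain ⟨θ, hθ⟩ := core hodd hoddQ π (π g) x y hx hy h1 h2
      exact admissible_of_range_compl hθ

/-- An abelian group of odd order is not `(n-1)`-admissible. -/
theorem abelian_not_admissible {G : Type*} [CommGroup G] [Finite G] (hodd : Odd (Nat.card G)) :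
    ¬ Admissible G (Nat.card G - 1) := by
  classical
  rintro ⟨θ, hθ⟩
  have := Fintype.ofFinite G
  rw [chainRank] at hθ
  set f : G → G := fun x => x * θ x with hf
  have hcompl : ((Set.range f)ᶜ).ncard = 1 := by
    rw [Set.ncard_compl, hθ]
    have : 0 < Nat.card G := Nat.card_pos
    omega
  obtain ⟨b, hb⟩ := Set.ncard_eq_one.1 hcompl
  have hbr : b ∉ Set.range f := by
    have : b ∈ (Set.range f)ᶜ := by rw [hb]; rfl
    exact this
  have hbr' : ∀ s, s ≠ b → s ∈ Set.range f := by
    intro s hs
    by_contra hcon
    have : s ∈ (Set.range f)ᶜ := hcon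
    rw [hb] at this
    exact hs this
  -- the product of all elements is trivial
  have hprod : ∏ x : G, x = 1 := by
    have h1 : ∏ x : G, x⁻¹ = ∏ x : G, x := Equiv.prod_comp (Equiv.inv G) (fun x => x)
    rw [Finset.prod_inv_distrib] at h1
    apply sq_inj hodd
    rw [mul_one]
    nth_rewrite 1 [← h1]
    exact inv_mul_cancel _
  have hprodf : ∏ x : G, f x = 1 := by
    simp only [hf]
    rw [Finset.prod_mul_distrib, Equiv.prod_comp θ (fun x => x), hprod, mul_one]
  -- two rows with the same symbol
  obtain ⟨x1, x2, hne, heq⟩ : ∃ x1 x2, x1 ≠ x2 ∧ f x1 = f x2 := by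
    by_contra hcon
    push Not at hcon
    have hinj : Function.Injective f := fun u v h => by
      by_contra huv
      exact hcon u v huv h
    exact hbr (Finite.surjective_of_injective hinj b)
  have himg : (Finset.univ.erase x1).image f = Finset.univ.erase b := by
    ext s
    simp only [Finset.mem_image, Finset.mem_erase, Finset.mem_univ, and_true]
    constructor
    · rintro ⟨x, -, rfl⟩ h
      exact hbr ⟨x, h⟩
    · intro hs
      obtain ⟨x, rfl⟩ := hbr' s hs
      by_cases hx : x = x1
      · exact ⟨x2, hne.symm, by rw [hx, heq]⟩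
      · exact ⟨x, hx, rfl⟩
  have hinjOn : Set.InjOn f (Finset.univ.erase x1 : Finset G) := by
    apply Finset.injOn_of_card_image_eq
    rw [himg, Finset.card_erase_of_mem (Finset.mem_univ _),
      Finset.card_erase_of_mem (Finset.mem_univ _)]
  have e1 : ∏ x ∈ Finset.univ.erase x1, f x = ∏ s ∈ Finset.univ.erase b, s := by
    rw [← himg, Finset.prod_image hinjOn]
  have e2 : f x1 * ∏ x ∈ Finset.univ.erase x1, f x = 1 := by
    rw [Finset.mul_prod_erase _ _ (Finset.mem_univ _), hprodf]
  have e3 : b * ∏ s ∈ Finset.univ.erase b, s = 1 := by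
    rw [Finset.mul_prod_erase _ (fun s => s) (Finset.mem_univ _), hprod]
  rw [e1, ← e3] at e2
  exact hbr ⟨x1, mul_right_cancel e2⟩

end reduction

/-- Main theorem: a finite group of odd order `n` has a chain of rank `n - 1` in its Cayley
table if and only if it is non-abelian. -/
theorem result (G : Type*) [Group G] [Finite G] (hodd : Odd (Nat.card G)) :
    Admissible G (Nat.card G - 1) ↔ ¬ ∀ a b : G, a * b = b * a := by
  constructor
  · intro h hcomm
    let inst : CommGroup G := { (inferInstance : Group G) with mul_comm := hcomm }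
    exact @abelian_not_admissible G inst _ hodd h
  · intro hG
    exact nonabelian_admissible _ G rfl hodd hG

end Pool.Agent.Results.MP_053bca_co.OddOrderNearChain
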